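import Pool.Agent.K1H34.HYC.Stm2

/-!
# The Havet-Yu conjecture up to an error O(p), piece STRUCT: attaching vertices to classes
-/

set_option autoImplicit false
set_option exponentiation.threshold 1000
open Classical Finset

namespace Pool.Agent.K1H34.HYC

namespace StructAux

variable {V : Type} [Fintype V]

/-- the decomposition and the attached vertices -/
structure Ctx (G : SimpleGraph V) (D : ℕ) (I : Finset V) (K : V → Finset V) (S Z : Finset V)
    (q : V → V) (att : V → V → V) : Prop where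
  deg : ∀ v, dg G univ v ≤ D
  B : Base G D I K S Z q
  cI : ∀ i ∈ I, ((univ.filter (fun u => Req G D I K Z q u i)).card : ℝ) ≤ D / 2 ^ 470
  cU : ∀ u, (univ.filter (fun i => Req G D I K Z q u i)).card ≤ 2 ^ 121
  a1 : ∀ u i, Req G D I K Z q u i → att u i ∈ K i ∧ att u i ∉ Z ∧ att u i ∉ CN G Z q u
  a2 : ∀ u u' i, Req G D I K Z q u i → Req G D I K Z q u' i → att u i = att u' i → u = u'
  a3 : ∀ u i i', Req G D I K Z q u i → Req G D I K Z q u i' → ¬ G.Adj (att u i) (att u i')

/-- the new set `Z` -/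
noncomputable def ZZ (Z : Finset V) (R : V → V → Prop) (att : V → V → V) : Finset V :=
  Z ∪ univ.filter (fun v => ∃ u i, R u i ∧ att u i = v)

/-- the new map `q` -/
noncomputable def qq (Z : Finset V) (q : V → V) (R : V → V → Prop) (att : V → V → V) (v : V) : V :=
  if v ∈ Z then q v else if h : ∃ u i, R u i ∧ att u i = v then h.choose else v

section

variable {G : SimpleGraph V} {D : ℕ} {I : Finset V} {K : V → Finset V} {S Z : Finset V}
  {q : V → V} {att : V → V → V}

lemma mem_ZZ {R : V → V → Prop} {v : V} :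
    v ∈ ZZ Z R att ↔ v ∈ Z ∨ ∃ u i, R u i ∧ att u i = v := by
  simp [ZZ]

lemma qq_old {R : V → V → Prop} {v : V} (h : v ∈ Z) : qq Z q R att v = q v := by
  simp [qq, h]

lemma att_uniq (C : Ctx G D I K S Z q att) {u u' i i' : V} (h : Req G D I K Z q u i)
    (h' : Req G D I K Z q u' i') (he : att u i = att u' i') : u = u' ∧ i = i' := by
  have hi : i = i' := by
    by_contra hne
    have h1 := C.B.disj i h.2.2.1 i' h'.2.2.1 hne
    exact (Finset.disjoint_left.1 h1) (C.a1 u i h).1 (he ▸ (C.a1 u' i' h').1)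
  subst hi
  exact ⟨C.a2 u u' i h h' he, rfl⟩

lemma qq_att (C : Ctx G D I K S Z q att) {u i : V} (h : Req G D I K Z q u i) :
    qq Z q (Req G D I K Z q) att (att u i) = u := by
  have h1 : att u i ∉ Z := (C.a1 u i h).2.1
  have h2 : ∃ u' i', Req G D I K Z q u' i' ∧ att u' i' = att u i := ⟨u, i, h, rfl⟩
  rw [qq, if_neg h1, dif_pos h2]
  obtain ⟨i', hi', he⟩ := h2.choose_spec
  exact (att_uniq C hi' h he).1

lemma mem_cls (C : Ctx G D I K S Z q att) {u z : V} :
    z ∈ cls (ZZ Z (Req G D I K Z q) att) (qq Z q (Req G D I K Z q) att) u ↔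
      z ∈ cls Z q u ∨ ∃ i, Req G D I K Z q u i ∧ att u i = z := by
  rw [cls, mem_filter, mem_ZZ]
  constructor
  · rintro ⟨h1 | ⟨u', i, h, rfl⟩, h2⟩
    · left
      rw [qq_old h1] at h2
      exact mem_filter.2 ⟨h1, h2⟩
    · right
      rw [qq_att C h] at h2
      subst h2
      exact ⟨i, h, rfl⟩
  · rintro (h | ⟨i, h, rfl⟩)
    · obtain ⟨h1, h2⟩ := mem_filter.1 h
      exact ⟨Or.inl h1, by rw [qq_old h1]; exact h2⟩
    · exact ⟨Or.inr ⟨u, i, h, rfl⟩, qq_att C h⟩

lemma mem_CN {Z : Finset V} {q : V → V} {u v : V} : v ∈ CN G Z q u ↔ ∃ z ∈ cls Z q u, G.Adj z v := by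
  simp [CN]

lemma rep (C : Ctx G D I K S Z q att) {u : V} (h1 : u ∈ ZZ Z (Req G D I K Z q) att)
    (h2 : qq Z q (Req G D I K Z q) att u = u) : u ∈ Z ∧ q u = u := by
  rcases mem_ZZ.1 h1 with h | ⟨u', i, h, rfl⟩
  · rw [qq_old h] at h2
    exact ⟨h, h2⟩
  · exfalso
    rw [qq_att C h] at h2
    apply (C.a1 u' i h).2.1
    rw [← h2]
    exact h.1

/-- neighbours of an attached vertex outside the cluster -/
lemma att_out (C : Ctx G D I K S Z q att) {u j : V} (h : Req G D I K Z q u j) :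
    (((univ \ K j).filter (fun v => G.Adj (att u j) v)).card : ℝ) ≤ D / 2 ^ 300 :=
  C.B.out j h.2.2.1 _ (C.a1 u j h).1 (C.a1 u j h).2.1

/-- all the neighbours of the attached vertices of a class outside the clusters -/
noncomputable def far (G : SimpleGraph V) (D : ℕ) (I : Finset V) (K : V → Finset V) (Z : Finset V)
    (q : V → V) (att : V → V → V) (u : V) : Finset V :=
  (univ.filter (fun j => Req G D I K Z q u j)).biUnion
    (fun j => (univ \ K j).filter (fun v => G.Adj (att u j) v))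

lemma far_card (C : Ctx G D I K S Z q att) (u : V) :
    ((far G D I K Z q att u).card : ℝ) ≤ 2 ^ 121 * (D / 2 ^ 300) := by
  have h1 : ((far G D I K Z q att u).card : ℝ) ≤
      ∑ j ∈ univ.filter (fun j => Req G D I K Z q u j),
        (((univ \ K j).filter (fun v => G.Adj (att u j) v)).card : ℝ) := by
    exact_mod_cast card_biUnion_le
  refine h1.trans ?_
  have h2 : ∑ j ∈ univ.filter (fun j => Req G D I K Z q u j),
        (((univ \ K j).filter (fun v => G.Adj (att u j) v)).card : ℝ) ≤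
      ∑ _j ∈ univ.filter (fun j => Req G D I K Z q u j), ((D : ℝ) / 2 ^ 300) :=
    sum_le_sum fun j hj => att_out C (mem_filter.1 hj).2
  refine h2.trans ?_
  rw [sum_const, nsmul_eq_mul]
  have h3 : ((univ.filter (fun j => Req G D I K Z q u j)).card : ℝ) ≤ 2 ^ 121 := by
    exact_mod_cast C.cU u
  exact mul_le_mul_of_nonneg_right h3 (by positivity)

/-- the new vertices of `Z` in a cluster -/
lemma new_card (C : Ctx G D I K S Z q att) {i : V} (hi : i ∈ I) :
    (((K i).filter (fun v => v ∈ ZZ Z (Req G D I K Z q) att ∧ v ∉ Z)).card : ℝ) ≤ D / 2 ^ 470 := by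
  refine le_trans ?_ (C.cI i hi)
  have h : (K i).filter (fun v => v ∈ ZZ Z (Req G D I K Z q) att ∧ v ∉ Z) ⊆
      (univ.filter (fun u => Req G D I K Z q u i)).image (fun u => att u i) := by
    intro v hv
    obtain ⟨h1, h2, h3⟩ := mem_filter.1 hv
    rcases mem_ZZ.1 h2 with h | ⟨u', i', h, rfl⟩
    · exact absurd h h3
    · have hii : i' = i := by
        by_contra hne
        have h1' := C.B.disj i' h.2.2.1 i hi hne
        exact (Finset.disjoint_left.1 h1') (C.a1 u' i' h).1 h1
      subst hii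
      exact mem_image.2 ⟨u', mem_filter.2 ⟨mem_univ _, h⟩, rfl⟩
  exact_mod_cast (card_le_card h).trans card_image_le

lemma few' (C : Ctx G D I K S Z q att) {i : V} (hi : i ∈ I) :
    (((K i).filter (fun v => v ∈ ZZ Z (Req G D I K Z q) att)).card : ℝ) ≤ D / 2 ^ 295 := by
  have h1 := new_card C hi
  have h2 := C.B.few i hi
  have h3 : (K i).filter (fun v => v ∈ ZZ Z (Req G D I K Z q) att) ⊆
      (K i).filter (fun v => v ∈ Z) ∪
      (K i).filter (fun v => v ∈ ZZ Z (Req G D I K Z q) att ∧ v ∉ Z) := by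
    intro v hv
    obtain ⟨h1, h2⟩ := mem_filter.1 hv
    by_cases h : v ∈ Z
    · exact mem_union_left _ (mem_filter.2 ⟨h1, h⟩)
    · exact mem_union_right _ (mem_filter.2 ⟨h1, h2, h⟩)
  have h4 : (((K i).filter (fun v => v ∈ ZZ Z (Req G D I K Z q) att)).card : ℝ) ≤
      ((K i).filter (fun v => v ∈ Z)).card +
      ((K i).filter (fun v => v ∈ ZZ Z (Req G D I K Z q) att ∧ v ∉ Z)).card := by
    exact_mod_cast (card_le_card h3).trans (card_union_le _ _)
  have hD : (0 : ℝ) ≤ D := Nat.cast_nonneg D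
  linarith

lemma CN_sub (C : Ctx G D I K S Z q att) {u v : V}
    (h : v ∈ CN G (ZZ Z (Req G D I K Z q) att) (qq Z q (Req G D I K Z q) att) u) :
    v ∈ CN G Z q u ∨ ∃ j, Req G D I K Z q u j ∧ G.Adj (att u j) v := by
  obtain ⟨z, hz, hv⟩ := mem_CN.1 h
  rcases (mem_cls C).1 hz with hz | ⟨j, hj, rfl⟩
  · exact Or.inl (mem_CN.2 ⟨z, hz, hv⟩)
  · exact Or.inr ⟨j, hj, hv⟩

lemma mem_far {u v j : V} (hj : Req G D I K Z q u j) (h1 : v ∉ K j) (h2 : G.Adj (att u j) v) :
    v ∈ far G D I K Z q att u :=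
  mem_biUnion.2 ⟨j, mem_filter.2 ⟨mem_univ _, hj⟩,
    mem_filter.2 ⟨mem_sdiff.2 ⟨mem_univ _, h1⟩, h2⟩⟩

/-- the clusters met by the new class of `u` -/
noncomputable def met (G : SimpleGraph V) (D : ℕ) (I : Finset V) (K : V → Finset V) (Z : Finset V)
    (q : V → V) (u : V) : Finset V :=
  univ.filter (fun j => Req G D I K Z q u j) ∪ I.filter (fun j => u ∈ K j)

lemma met_card (C : Ctx G D I K S Z q att) (u : V) :
    ((met G D I K Z q u).card : ℝ) ≤ 2 ^ 121 + 1 := by
  have h1 : (I.filter (fun j => u ∈ K j)).card ≤ 1 := by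
    rw [card_le_one]
    intro a ha b hb
    by_contra hne
    have h := C.B.disj a (mem_filter.1 ha).1 b (mem_filter.1 hb).1 hne
    exact (Finset.disjoint_left.1 h) (mem_filter.1 ha).2 (mem_filter.1 hb).2
  have h2 : (met G D I K Z q u).card ≤ 2 ^ 121 + 1 :=
    (card_union_le _ _).trans (Nat.add_le_add (C.cU u) h1)
  exact_mod_cast h2

lemma met_of (C : Ctx G D I K S Z q att) {u z j : V} (hj : j ∈ I)
    (hz : z ∈ cls (ZZ Z (Req G D I K Z q) att) (qq Z q (Req G D I K Z q) att) u)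
    (hzj : z ∈ K j) : j ∈ met G D I K Z q u := by
  rcases (mem_cls C).1 hz with hz | ⟨i, hi, rfl⟩
  · refine mem_union_right _ (mem_filter.2 ⟨hj, ?_⟩)
    obtain ⟨h1, h2⟩ := mem_filter.1 hz
    rw [← h2]
    exact (C.B.qK z h1 j hj).2 hzj
  · refine mem_union_left _ (mem_filter.2 ⟨mem_univ _, ?_⟩)
    have hij : i = j := by
      by_contra hne
      have h := C.B.disj i hi.2.2.1 j hj hne
      exact (Finset.disjoint_left.1 h) (C.a1 u i hi).1 hzj
    rw [← hij]
    exact hi

/-- the points of `Z` in the clusters met by the class of `u` -/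
noncomputable def ins (G : SimpleGraph V) (D : ℕ) (I : Finset V) (K : V → Finset V) (Z : Finset V)
    (q : V → V) (att : V → V → V) (u : V) : Finset V :=
  (met G D I K Z q u).biUnion
    (fun j => if j ∈ I then (K j).filter (fun v => v ∈ ZZ Z (Req G D I K Z q) att) else ∅)

lemma ins_card (C : Ctx G D I K S Z q att) (u : V) :
    ((ins G D I K Z q att u).card : ℝ) ≤ (2 ^ 121 + 1) * (D / 2 ^ 295) := by
  have h1 : ((ins G D I K Z q att u).card : ℝ) ≤ ∑ j ∈ met G D I K Z q u,
      ((if j ∈ I then (K j).filter (fun v => v ∈ ZZ Z (Req G D I K Z q) att) else ∅ :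
        Finset V).card : ℝ) := by
    exact_mod_cast card_biUnion_le
  refine h1.trans ?_
  have h2 : ∑ j ∈ met G D I K Z q u,
      ((if j ∈ I then (K j).filter (fun v => v ∈ ZZ Z (Req G D I K Z q) att) else ∅ :
        Finset V).card : ℝ) ≤ ∑ _j ∈ met G D I K Z q u, ((D : ℝ) / 2 ^ 295) := by
    refine sum_le_sum fun j _ => ?_
    by_cases h : j ∈ I
    · rw [if_pos h]
      exact few' C h
    · rw [if_neg h, card_empty, Nat.cast_zero]
      positivity
  refine h2.trans ?_
  rw [sum_const, nsmul_eq_mul]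
  exact mul_le_mul_of_nonneg_right (met_card C u) (by positivity)

lemma rel_sub (C : Ctx G D I K S Z q att) (u : V) :
    univ.filter (fun u' => Rel G I K (ZZ Z (Req G D I K Z q) att)
      (qq Z q (Req G D I K Z q) att) u u') ⊆
    (((ZZ Z (Req G D I K Z q) att).filter (fun v => v ∈ CN G Z q u)) ∪
      far G D I K Z q att u ∪ ins G D I K Z q att u).image
      (qq Z q (Req G D I K Z q) att) := by
  intro u' hu'
  obtain ⟨h1, h2, -, h3⟩ := (mem_filter.1 hu').2
  rcases h3 with ⟨z, hz, z', hz', hadj⟩ | ⟨i, hi, ⟨z, hz, hzi⟩, z', hz', hzi'⟩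
  · refine mem_image.2 ⟨z', ?_, (mem_filter.1 hz').2⟩
    have hz'Z := (mem_filter.1 hz').1
    rcases (mem_cls C).1 hz with hz0 | ⟨j, hj, rfl⟩
    · exact mem_union_left _ (mem_union_left _ (mem_filter.2 ⟨hz'Z, mem_CN.2 ⟨z, hz0, hadj⟩⟩))
    · by_cases hK : z' ∈ K j
      · refine mem_union_right _ (mem_biUnion.2 ⟨j, met_of C hj.2.2.1 hz (C.a1 u j hj).1, ?_⟩)
        rw [if_pos hj.2.2.1]
        exact mem_filter.2 ⟨hK, hz'Z⟩
      · exact mem_union_left _ (mem_union_right _ (mem_far hj hK hadj))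
  · refine mem_image.2 ⟨z', ?_, (mem_filter.1 hz').2⟩
    have hz'Z := (mem_filter.1 hz').1
    refine mem_union_right _ (mem_biUnion.2 ⟨i, met_of C hi hz hzi, ?_⟩)
    rw [if_pos hi]
    exact mem_filter.2 ⟨hzi', hz'Z⟩

lemma S_not_ZZ (C : Ctx G D I K S Z q att) {v : V} (h : v ∈ S) :
    v ∉ ZZ Z (Req G D I K Z q) att := by
  intro h'
  rcases mem_ZZ.1 h' with h1 | ⟨u, i, h1, rfl⟩
  · exact (Finset.disjoint_left.1 C.B.SZ) h h1
  · exact (Finset.disjoint_left.1 (C.B.SK i h1.2.2.1)) h (C.a1 u i h1).1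

/-- the main term of the slack -/
lemma main_term (C : Ctx G D I K S Z q att) {u : V} (hu : u ∈ Z) (hq : q u = u) :
    ((univ.filter (fun v => v ∈ CN G Z q u ∧
      (v ∈ S ∨ v ∈ ZZ Z (Req G D I K Z q) att))).card : ℝ) ≤
      D - D / 2 ^ 60 + D / 2 ^ 295 := by
  have hD : (0 : ℝ) ≤ D := Nat.cast_nonneg D
  by_cases hcl : ∃ j ∈ I, u ∈ K j
  · obtain ⟨j, hj, huj⟩ := hcl
    have hCK : ∀ z ∈ cls Z q u, z ∈ K j := by
      intro z hz
      obtain ⟨h1, h2⟩ := mem_filter.1 hz
      rw [← C.B.qK z h1 j hj, h2]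
      exact huj
    have hsub : univ.filter (fun v => v ∈ CN G Z q u ∧
        (v ∈ S ∨ v ∈ ZZ Z (Req G D I K Z q) att)) ⊆
        (cls Z q u).biUnion (fun z => (univ \ K j).filter (fun v => G.Adj z v)) ∪
        (K j).filter (fun v => v ∈ ZZ Z (Req G D I K Z q) att) := by
      intro v hv
      obtain ⟨-, h1, h2⟩ := mem_filter.1 hv
      by_cases hvj : v ∈ K j
      · refine mem_union_right _ (mem_filter.2 ⟨hvj, ?_⟩)
        rcases h2 with h2 | h2
        · exact absurd hvj ((Finset.disjoint_left.1 (C.B.SK j hj)) h2)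
        · exact h2
      · obtain ⟨z, hz, hzv⟩ := mem_CN.1 h1
        exact mem_union_left _ (mem_biUnion.2 ⟨z, hz,
          mem_filter.2 ⟨mem_sdiff.2 ⟨mem_univ _, hvj⟩, hzv⟩⟩)
    have h1 : ((univ.filter (fun v => v ∈ CN G Z q u ∧
        (v ∈ S ∨ v ∈ ZZ Z (Req G D I K Z q) att))).card : ℝ) ≤
        ∑ z ∈ cls Z q u, (((univ \ K j).filter (fun v => G.Adj z v)).card : ℝ) +
        ((K j).filter (fun v => v ∈ ZZ Z (Req G D I K Z q) att)).card := by
      have := (card_le_card hsub).trans ((card_union_le _ _).trans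
        (Nat.add_le_add_right card_biUnion_le _))
      exact_mod_cast this
    have h2 : ∑ z ∈ cls Z q u, (((univ \ K j).filter (fun v => G.Adj z v)).card : ℝ) ≤
        ∑ _z ∈ cls Z q u, (26 / 100 * (D : ℝ)) :=
      sum_le_sum fun z hz => C.B.inside j hj z (hCK z hz)
    have h3 : ∑ _z ∈ cls Z q u, (26 / 100 * (D : ℝ)) ≤ 2 * (26 / 100 * D) := by
      rw [sum_const, nsmul_eq_mul]
      have : ((cls Z q u).card : ℝ) ≤ 2 := by exact_mod_cast C.B.size u
      exact mul_le_mul_of_nonneg_right this (by positivity)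
    have h4 := few' C hj
    have h5 : (D : ℝ) / 2 ^ 295 ≤ D / 100 := by linarith
    have h6 : (D : ℝ) / 2 ^ 60 ≤ D / 100 := by linarith
    linarith
  · push Not at hcl
    have hC : ∀ z ∈ cls Z q u, z = u := by
      intro z hz
      obtain ⟨h1, h2⟩ := mem_filter.1 hz
      have h3 : ∀ i ∈ I, z ∉ K i := by
        intro i hi hzi
        have h4 := (C.B.qK z h1 i hi).2 hzi
        rw [h2] at h4
        exact hcl i hi h4
      rw [← C.B.qT z h1 h3, h2]
    obtain ⟨i, hi, hbig⟩ := C.B.big u hu hcl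
    have hsub : univ.filter (fun v => v ∈ CN G Z q u ∧
        (v ∈ S ∨ v ∈ ZZ Z (Req G D I K Z q) att)) ∪ (K i).filter (fun v => G.Adj u v) ⊆
        univ.filter (fun v => G.Adj u v) := by
      intro v hv
      rcases mem_union.1 hv with hv | hv
      · obtain ⟨z, hz, hzv⟩ := mem_CN.1 (mem_filter.1 hv).2.1
        rw [hC z hz] at hzv
        exact mem_filter.2 ⟨mem_univ _, hzv⟩
      · exact mem_filter.2 ⟨mem_univ _, (mem_filter.1 hv).2⟩
    have hint : univ.filter (fun v => v ∈ CN G Z q u ∧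
        (v ∈ S ∨ v ∈ ZZ Z (Req G D I K Z q) att)) ∩ (K i).filter (fun v => G.Adj u v) ⊆
        (K i).filter (fun v => v ∈ ZZ Z (Req G D I K Z q) att) := by
      intro v hv
      obtain ⟨hv1, hv2⟩ := mem_inter.1 hv
      have hvK := (mem_filter.1 hv2).1
      refine mem_filter.2 ⟨hvK, ?_⟩
      rcases (mem_filter.1 hv1).2.2 with h | h
      · exact absurd hvK ((Finset.disjoint_left.1 (C.B.SK i hi)) h)
      · exact h
    have h1 := card_union_add_card_inter (univ.filter (fun v => v ∈ CN G Z q u ∧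
        (v ∈ S ∨ v ∈ ZZ Z (Req G D I K Z q) att))) ((K i).filter (fun v => G.Adj u v))
    have h2 := card_le_card hsub
    have h3 := card_le_card hint
    have h4 : (univ.filter (fun v => G.Adj u v)).card ≤ D := C.deg u
    have h5 := few' C hi
    have h6 : (D : ℝ) / 2 ^ 60 < ((K i).filter (fun v => G.Adj u v)).card := hbig
    have h7 : (univ.filter (fun v => v ∈ CN G Z q u ∧
        (v ∈ S ∨ v ∈ ZZ Z (Req G D I K Z q) att))).card +
        ((K i).filter (fun v => G.Adj u v)).card ≤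
        D + ((K i).filter (fun v => v ∈ ZZ Z (Req G D I K Z q) att)).card := by
      omega
    have h8 : ((univ.filter (fun v => v ∈ CN G Z q u ∧
        (v ∈ S ∨ v ∈ ZZ Z (Req G D I K Z q) att))).card : ℝ) +
        ((K i).filter (fun v => G.Adj u v)).card ≤
        D + ((K i).filter (fun v => v ∈ ZZ Z (Req G D I K Z q) att)).card := by
      exact_mod_cast h7
    linarith

lemma slack (C : Ctx G D I K S Z q att) {u : V} (hu : u ∈ Z) (hq : q u = u) :
    ((S.filter (fun v => v ∈ CN G (ZZ Z (Req G D I K Z q) att)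
      (qq Z q (Req G D I K Z q) att) u)).card : ℝ) +
    (univ.filter (fun u' => Rel G I K (ZZ Z (Req G D I K Z q) att)
      (qq Z q (Req G D I K Z q) att) u u')).card + D / 2 ^ 61 ≤ D := by
  have hD : (0 : ℝ) ≤ D := Nat.cast_nonneg D
  have h1 : S.filter (fun v => v ∈ CN G (ZZ Z (Req G D I K Z q) att)
      (qq Z q (Req G D I K Z q) att) u) ⊆ S.filter (fun v => v ∈ CN G Z q u) ∪
      far G D I K Z q att u := by
    intro v hv
    obtain ⟨hS, hv⟩ := mem_filter.1 hv
    rcases CN_sub C hv with h | ⟨j, hj, hadj⟩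
    · exact mem_union_left _ (mem_filter.2 ⟨hS, h⟩)
    · exact mem_union_right _ (mem_far hj ((Finset.disjoint_left.1 (C.B.SK j hj.2.2.1)) hS) hadj)
  have h2 : ((S.filter (fun v => v ∈ CN G (ZZ Z (Req G D I K Z q) att)
      (qq Z q (Req G D I K Z q) att) u)).card : ℝ) ≤
      (S.filter (fun v => v ∈ CN G Z q u)).card + (far G D I K Z q att u).card := by
    exact_mod_cast (card_le_card h1).trans (card_union_le _ _)
  have h3 : ((univ.filter (fun u' => Rel G I K (ZZ Z (Req G D I K Z q) att)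
      (qq Z q (Req G D I K Z q) att) u u')).card : ℝ) ≤
      ((ZZ Z (Req G D I K Z q) att).filter (fun v => v ∈ CN G Z q u)).card +
      (far G D I K Z q att u).card + (ins G D I K Z q att u).card := by
    have := ((card_le_card (rel_sub C u)).trans card_image_le).trans
      ((card_union_le _ _).trans (Nat.add_le_add_right (card_union_le _ _) _))
    exact_mod_cast this
  have h4 : ((S.filter (fun v => v ∈ CN G Z q u)).card : ℝ) +
      ((ZZ Z (Req G D I K Z q) att).filter (fun v => v ∈ CN G Z q u)).card ≤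
      (univ.filter (fun v => v ∈ CN G Z q u ∧
      (v ∈ S ∨ v ∈ ZZ Z (Req G D I K Z q) att))).card := by
    have hd : Disjoint (S.filter (fun v => v ∈ CN G Z q u))
        ((ZZ Z (Req G D I K Z q) att).filter (fun v => v ∈ CN G Z q u)) := by
      rw [Finset.disjoint_left]
      intro v hv hv'
      exact S_not_ZZ C (mem_filter.1 hv).1 (mem_filter.1 hv').1
    have := card_union_of_disjoint hd
    have h' : S.filter (fun v => v ∈ CN G Z q u) ∪
        (ZZ Z (Req G D I K Z q) att).filter (fun v => v ∈ CN G Z q u) ⊆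
        univ.filter (fun v => v ∈ CN G Z q u ∧
          (v ∈ S ∨ v ∈ ZZ Z (Req G D I K Z q) att)) := by
      intro v hv
      rcases mem_union.1 hv with hv | hv
      · exact mem_filter.2 ⟨mem_univ _, (mem_filter.1 hv).2, Or.inl (mem_filter.1 hv).1⟩
      · exact mem_filter.2 ⟨mem_univ _, (mem_filter.1 hv).2, Or.inr (mem_filter.1 hv).1⟩
    have h'' := card_le_card h'
    rw [this] at h''
    exact_mod_cast h''
  have h5 := main_term C hu hq
  have h6 := far_card C u
  have h7 := ins_card C u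
  linarith

lemma smallZ (C : Ctx G D I K S Z q att) {u : V} (hu : u ∈ Z) (hq : q u = u) {i : V} (hi : i ∈ I)
    (h : ∀ z ∈ cls (ZZ Z (Req G D I K Z q) att) (qq Z q (Req G D I K Z q) att) u, z ∉ K i) :
    (((K i).filter (fun v => v ∈ CN G (ZZ Z (Req G D I K Z q) att)
      (qq Z q (Req G D I K Z q) att) u)).card : ℝ) ≤ D / 2 ^ 119 := by
  have hD : (0 : ℝ) ≤ D := Nat.cast_nonneg D
  have hR : ¬ Req G D I K Z q u i := fun hr =>
    h _ ((mem_cls C).2 (Or.inr ⟨i, hr, rfl⟩)) (C.a1 u i hr).1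
  have h0 : (((K i).filter (fun v => v ∈ CN G Z q u)).card : ℝ) ≤ D / 2 ^ 120 := by
    by_contra hlt
    push Not at hlt
    exact hR ⟨hu, hq, hi, fun z hz => h z ((mem_cls C).2 (Or.inl hz)), hlt⟩
  have h1 : (K i).filter (fun v => v ∈ CN G (ZZ Z (Req G D I K Z q) att)
      (qq Z q (Req G D I K Z q) att) u) ⊆ (K i).filter (fun v => v ∈ CN G Z q u) ∪
      far G D I K Z q att u := by
    intro v hv
    obtain ⟨hK, hv⟩ := mem_filter.1 hv
    rcases CN_sub C hv with h' | ⟨j, hj, hadj⟩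
    · exact mem_union_left _ (mem_filter.2 ⟨hK, h'⟩)
    · have hne : i ≠ j := fun he => hR (he ▸ hj)
      exact mem_union_right _ (mem_far hj
        ((Finset.disjoint_left.1 (C.B.disj i hi j hj.2.2.1 hne)) hK) hadj)
  have h2 : (((K i).filter (fun v => v ∈ CN G (ZZ Z (Req G D I K Z q) att)
      (qq Z q (Req G D I K Z q) att) u)).card : ℝ) ≤
      ((K i).filter (fun v => v ∈ CN G Z q u)).card + (far G D I K Z q att u).card := by
    exact_mod_cast (card_le_card h1).trans (card_union_le _ _)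
  have h3 := far_card C u
  linarith

lemma cnt (C : Ctx G D I K S Z q att) {i : V} (hi : i ∈ I) :
    ((K i).filter (fun v => v ∉ ZZ Z (Req G D I K Z q) att)).card +
    (((K i).filter (fun v => v ∈ ZZ Z (Req G D I K Z q) att)).image
      (qq Z q (Req G D I K Z q) att)).card ≤ D + 1 := by
  have h0 := C.B.cnt i hi
  have h1 : ((K i).filter (fun v => v ∈ ZZ Z (Req G D I K Z q) att)).image
      (qq Z q (Req G D I K Z q) att) ⊆ ((K i).filter (fun v => v ∈ Z)).image q ∪
      ((K i).filter (fun v => v ∈ ZZ Z (Req G D I K Z q) att ∧ v ∉ Z)).image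
        (qq Z q (Req G D I K Z q) att) := by
    intro w hw
    obtain ⟨v, hv, rfl⟩ := mem_image.1 hw
    obtain ⟨hvK, hvZ⟩ := mem_filter.1 hv
    by_cases h : v ∈ Z
    · refine mem_union_left _ (mem_image.2 ⟨v, mem_filter.2 ⟨hvK, h⟩, ?_⟩)
      rw [qq_old h]
    · exact mem_union_right _ (mem_image.2 ⟨v, mem_filter.2 ⟨hvK, hvZ, h⟩, rfl⟩)
  have h2 := (card_le_card h1).trans ((card_union_le _ _).trans
    (Nat.add_le_add_left card_image_le _))
  have h3 : ((K i).filter (fun v => v ∉ ZZ Z (Req G D I K Z q) att)).card +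
      ((K i).filter (fun v => v ∈ ZZ Z (Req G D I K Z q) att ∧ v ∉ Z)).card ≤
      ((K i).filter (fun v => v ∉ Z)).card := by
    rw [← card_union_of_disjoint]
    · refine card_le_card fun v hv => ?_
      rcases mem_union.1 hv with hv | hv
      · obtain ⟨a, b⟩ := mem_filter.1 hv
        exact mem_filter.2 ⟨a, fun h => b (mem_ZZ.2 (Or.inl h))⟩
      · obtain ⟨a, -, b⟩ := mem_filter.1 hv
        exact mem_filter.2 ⟨a, b⟩
    · rw [Finset.disjoint_left]
      intro v hv hv'
      exact (mem_filter.1 hv).2 (mem_filter.1 hv').2.1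
  omega

theorem good (C : Ctx G D I K S Z q att) :
    Good G D I K S (ZZ Z (Req G D I K Z q) att) (qq Z q (Req G D I K Z q) att) where
  disj := C.B.disj
  SZ := by
    rw [Finset.disjoint_left]
    exact fun v hv => S_not_ZZ C hv
  SK := C.B.SK
  cover := fun v h1 h2 => C.B.cover v h1 (fun h => h2 (mem_ZZ.2 (Or.inl h)))
  sparse := C.B.sparse
  smallS := C.B.smallS
  qZ := by
    intro z hz
    rcases mem_ZZ.1 hz with h | ⟨u, i, h, rfl⟩
    · obtain ⟨h1, h2⟩ := C.B.qZ z h
      rw [qq_old h, qq_old h1]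
      exact ⟨mem_ZZ.2 (Or.inl h1), h2⟩
    · rw [qq_att C h, qq_old h.1]
      exact ⟨mem_ZZ.2 (Or.inl h.1), h.2.1⟩
  indep := by
    intro z hz z' hz' he
    rcases mem_ZZ.1 hz with h | ⟨u, i, h, rfl⟩
    · rcases mem_ZZ.1 hz' with h' | ⟨u', i', h', rfl⟩
      · rw [qq_old h, qq_old h'] at he
        exact C.B.indep z h z' h' he
      · rw [qq_old h, qq_att C h'] at he
        intro hadj
        exact (C.a1 u' i' h').2.2 (mem_CN.2 ⟨z, mem_filter.2 ⟨h, he⟩, hadj⟩)
    · rcases mem_ZZ.1 hz' with h' | ⟨u', i', h', rfl⟩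
      · rw [qq_old h', qq_att C h] at he
        intro hadj
        exact (C.a1 u i h).2.2 (mem_CN.2 ⟨z', mem_filter.2 ⟨h', he.symm⟩, hadj.symm⟩)
      · rw [qq_att C h, qq_att C h'] at he
        subst he
        exact C.a3 u i i' h h'
  size := by
    intro u
    have h1 : cls (ZZ Z (Req G D I K Z q) att) (qq Z q (Req G D I K Z q) att) u ⊆
        cls Z q u ∪ (univ.filter (fun i => Req G D I K Z q u i)).image (att u) := by
      intro z hz
      rcases (mem_cls C).1 hz with h | ⟨i, h, rfl⟩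
      · exact mem_union_left _ h
      · exact mem_union_right _ (mem_image.2 ⟨i, mem_filter.2 ⟨mem_univ _, h⟩, rfl⟩)
    have h2 := (card_le_card h1).trans ((card_union_le _ _).trans
      (Nat.add_le_add (C.B.size u) (card_image_le.trans (C.cU u))))
    exact h2.trans (by norm_num)
  slack := by
    intro u hu hq
    obtain ⟨h1, h2⟩ := rep C hu hq
    exact slack C h1 h2
  smallZ := by
    intro u hu hq i hi h
    obtain ⟨h1, h2⟩ := rep C hu hq
    exact smallZ C h1 h2 hi h
  cnt := fun i hi => cnt C hi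
  few := by
    intro i hi
    have hD : (0 : ℝ) ≤ D := Nat.cast_nonneg D
    have h1 : ((((K i).filter (fun v => v ∈ ZZ Z (Req G D I K Z q) att)).image
        (qq Z q (Req G D I K Z q) att)).card : ℝ) ≤
        ((K i).filter (fun v => v ∈ ZZ Z (Req G D I K Z q) att)).card := by
      exact_mod_cast card_image_le
    have h2 := few' C hi
    linarith
  out := fun i hi v hv hvZ => C.B.out i hi v hv (fun h => hvZ (mem_ZZ.2 (Or.inl h)))
  tot := C.B.tot

end

end StructAux

/-- STRUCT: the decomposition exists -/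
theorem t_STRUCT : S_BASE → S_ATT → S_STRUCT := by
  rintro ⟨D1, h1⟩ ⟨D2, h2⟩
  refine ⟨max D1 D2, fun D hD V _ G hG => ?_⟩
  obtain ⟨I, K, S, Z, q, hB⟩ := h1 D ((le_max_left _ _).trans hD) V G hG
  obtain ⟨h3, h4, att, h5, h6, h7⟩ := h2 D ((le_max_right _ _).trans hD) V G I K S Z q hG hB
  exact ⟨I, K, S, _, _, StructAux.good (att := att) ⟨hG, hB, h3, h4, h5, h6, h7⟩⟩

end Pool.Agent.K1H34.HYC
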